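import Pool.Agent.Helper78_NDM.Stmts

/-!
# The zeta function of a hyperplane arrangement: module SPL
-/

set_option autoImplicit false
set_option linter.unusedVariables false
set_option linter.unusedSectionVars false

namespace Pool.Agent.NDM.H46

open PowerSeries Finset Pool.Agent.Helper6_Mono Pool.Agent.Helper32_OMP Pool.Agent.NDM

section lem

variable {S : Type} [CommRing S]

theorem low_mul {M : ℕ} {a : S⟦X⟧} {c : S} (h : ∀ j ≤ M, coeff j a = if j = M then c else 0)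
    (W : S⟦X⟧) : ∀ j ≤ M, coeff j (W * a) = if j = M then coeff 0 W * c else 0 := by
  intro j hj
  rw [coeff_mul]
  by_cases hM : j = M
  · subst hM
    rw [if_pos rfl, Finset.sum_eq_single (0, j)]
    · rw [h j le_rfl, if_pos rfl]
    · rintro ⟨p, q⟩ hp hne
      rw [HasAntidiagonal.mem_antidiagonal] at hp
      have h1 : q ≠ j := by
        rintro rfl
        apply hne
        have : p = 0 := by simpa using hp
        rw [this]
      have hp' : p + q = j := hp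
      rw [h q (by omega), if_neg h1, mul_zero]
    · intro hn
      exact absurd (by simp) hn
  · rw [if_neg hM]
    refine Finset.sum_eq_zero fun p hp => ?_
    rw [HasAntidiagonal.mem_antidiagonal] at hp
    rw [h p.2 (by omega), if_neg (by omega), mul_zero]

theorem IsT_X_mul {M₁ M₂ : ℕ} {s : S⟦X⟧} : IsT (M₁ + M₂) (PowerSeries.X ^ M₁ * s) ↔ IsT M₂ s := by
  constructor
  · intro h j hj
    have h1 := h (j + M₁) (by omega)
    rw [coeff_X_pow_mul', if_pos (by omega), Nat.add_sub_cancel] at h1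
    rw [h1]
    by_cases h2 : j = M₂
    · rw [if_pos (by omega), if_pos h2]
    · rw [if_neg (by omega), if_neg h2]
  · intro h j hj
    rw [coeff_X_pow_mul']
    by_cases h2 : M₁ ≤ j
    · rw [if_pos h2, h (j - M₁) (by omega)]
      by_cases h3 : j = M₁ + M₂
      · rw [if_pos (by omega), if_pos h3]
      · rw [if_neg (by omega), if_neg h3]
    · rw [if_neg h2, if_neg (by omega)]

/-- LEMMA U. -/
theorem lemU {M₁ M₂ : ℕ} {q r : S⟦X⟧} (u : S) (hq : ∀ j < M₁, coeff j q = 0)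
    (hu : IsUnit (coeff M₁ q)) :
    IsT (M₁ + M₂) (C u * (q * r)) ↔ IsT M₂ (C (u * coeff M₁ q) * r) := by
  obtain ⟨U, hU⟩ := X_pow_dvd_iff.2 hq
  have h0 : coeff M₁ q = coeff 0 U := by
    rw [hU, coeff_X_pow_mul', if_pos le_rfl, Nat.sub_self]
  rw [h0] at hu ⊢
  have hUu : IsUnit U := by
    rw [isUnit_iff_constantCoeff]
    simpa using hu
  obtain ⟨V, hV⟩ := hUu.exists_right_inv
  have hV0 : coeff 0 U * coeff 0 V = 1 := by
    have := congrArg (coeff 0) hV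
    rw [coeff_zero_mul, coeff_zero_one] at this
    exact this
  have e1 : C u * (q * r) = PowerSeries.X ^ M₁ * (U * (C u * r)) := by
    rw [hU]
    ring
  rw [e1, IsT_X_mul]
  constructor
  · intro h j hj
    have h1 := low_mul h (C (coeff 0 U) * V) j hj
    have e2 : C (coeff 0 U) * V * (U * (C u * r)) = C (u * coeff 0 U) * r := by
      calc C (coeff 0 U) * V * (U * (C u * r)) = C (coeff 0 U) * (C u * r) * (U * V) := by ring
        _ = C (u * coeff 0 U) * r := by rw [hV, map_mul]; ring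
    rw [e2] at h1
    rw [h1, coeff_C_mul, mul_one, hV0]
  · intro h j hj
    have h1 := low_mul h (C (coeff 0 V) * U) j hj
    have e2 : C (coeff 0 V) * U * (C (u * coeff 0 U) * r) = U * (C u * r) := by
      calc C (coeff 0 V) * U * (C (u * coeff 0 U) * r)
          = C (coeff 0 U * coeff 0 V) * (U * (C u * r)) := by rw [map_mul, map_mul]; ring
        _ = U * (C u * r) := by rw [hV0, map_one, one_mul]
    rw [e2] at h1
    rw [h1, coeff_C_mul, mul_one, mul_comm, hV0]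

/-- agreement of low coefficients as a congruence -/
theorem mkI {N : ℕ} {a b : S⟦X⟧} : (∀ j ≤ N, coeff j a = coeff j b) ↔
    Ideal.Quotient.mk (Ideal.span {(PowerSeries.X ^ (N + 1) : S⟦X⟧)}) a
      = Ideal.Quotient.mk (Ideal.span {(PowerSeries.X ^ (N + 1) : S⟦X⟧)}) b := by
  rw [Ideal.Quotient.eq, Ideal.mem_span_singleton, X_pow_dvd_iff]
  constructor
  · intro h j hj
    rw [map_sub, h j (by omega), sub_self]
  · intro h j hj
    have := h j (by omega)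
    rwa [map_sub, sub_eq_zero] at this

end lem

section main

variable {k : Type} [Field k] {σ ι : Type} [Fintype σ] {β : Type} {wβ : β → QZ}

theorem pp_congr {S : Type} [CommRing S] [Algebra k S] (L : ι → σ → k) (m : ι → ℕ)
    (F : Finset ι) {N : ℕ} {γ γ' : σ → S⟦X⟧}
    (h : ∀ l, ∀ j ≤ N, coeff j (γ l) = coeff j (γ' l)) :
    ∀ j ≤ N, coeff j (pp L m F γ) = coeff j (pp L m F γ') := by
  rw [mkI]
  unfold pp lf
  simp only [map_prod, map_pow, map_sum, Algebra.smul_def, map_mul, mkI.1 (h _)]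

/-- the indices `M₂ + 1, ..., M` -/
def Dhi (σ : Type) (M₂ M : ℕ) : Set (σ × ℕ) := {p | M₂ < p.2 ∧ p.2 ≤ M}

theorem Dhi_eq (M₂ M : ℕ) : Dhi σ M₂ M = ↑((univ : Finset σ) ×ˢ Finset.Ioc M₂ M) := by
  ext p
  simp [Dhi]

theorem Dhi_finite (M₂ M : ℕ) : (Dhi σ M₂ M).Finite := by
  rw [Dhi_eq]
  exact Finset.finite_toSet _

theorem Dhi_ncard (M₂ M : ℕ) : (Dhi σ M₂ M).ncard = Fintype.card σ * (M - M₂) := by
  rw [Dhi_eq, Set.ncard_coe_finset, Finset.card_product, Finset.card_univ, Nat.card_Ioc]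

/-- the coefficients of the first factor -/
@[reducible] noncomputable def cA (L : ι → σ → k) (m : ι → ℕ) (A B : Finset ι)
    (M : ℕ) (ω θ : QZ) (Y : Over k QZ β wβ) {wu : QZ} (u : NF Y.F wu)
    (h : wu + (∑ i ∈ A, m i + ∑ i ∈ B, m i) • θ + M • ω = 0) (i : Fin (M + 1)) :
    NF (J2 L m A B M ω θ Y u h).F ((∑ i ∈ A, m i) • θ + (i : ℕ) • ω) :=
  ⟨fun x => coeff (i : ℕ) (pp L m A x.1.1.2.1), fun φ c x =>
    (cO L m A M ω θ Y (i : ℕ)).fn_tw φ c x.1.1⟩

theorem spl_iso (L : ι → σ → k) (m : ι → ℕ) (A B : Finset ι) (M₁ M₂ : ℕ) (ω θ : QZ)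
    (Y : Over k QZ β wβ) {wu : QZ} (u : NF Y.F wu)
    (h : wu + (∑ i ∈ A, m i + ∑ i ∈ B, m i) • θ + (M₁ + M₂) • ω = 0) :
    OIso ((J2 L m A B (M₁ + M₂) ω θ Y u h).stp (cA L m A B (M₁ + M₂) ω θ Y u h)
        ⟨M₁, by omega⟩)
      ((JJ L m B M₂ ω θ (YO L m A (M₁ + M₂) M₁ ω θ Y) (uO L m A (M₁ + M₂) M₁ ω θ Y u)
        (hYO h rfl)).times (serGF k (Dhi σ M₂ (M₁ + M₂)) (fun _ => θ) ω)) := by
  refine OIso.mk' (fun S _ _ x => (⟨(⟨x.1.1.1, fun j hj => x.2.1 ⟨j, by omega⟩ hj, x.2.2⟩,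
      ⟨fun l => lowS M₂ (x.1.1.2.1 l), ?_⟩), ?_⟩,
        ⟨fun l => x.1.1.2.1 l - lowS M₂ (x.1.1.2.1 l), ?_⟩))
    (fun S _ _ z => ⟨⟨(z.1.1.1.1, ⟨fun l => z.1.1.2.1 l + z.2.1 l, ?_⟩), ?_⟩,
      fun i hi => z.1.1.1.2.1 i hi, z.1.1.1.2.2⟩) ?_ ?_ ?_ ?_
  · intro l j hj
    rw [coeff_lowS]
    split_ifs with h1
    · refine x.1.1.2.2 l j fun h2 => hj ⟨h2.1, h1⟩
    · rfl
  · have h1 := (lemU (u.fn x.1.1.1.1) (fun j hj => x.2.1 ⟨j, by omega⟩ hj) x.2.2).1 x.1.2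
    intro j hj
    rw [← h1 j hj]
    show coeff j (C _ * pp L m B _) = coeff j (C _ * pp L m B _)
    rw [coeff_C_mul, coeff_C_mul]
    congr 1
    refine pp_congr L m B (N := M₂) (fun l j hj => ?_) j hj
    rw [coeff_lowS, if_pos hj]
  · intro l j hj
    rw [map_sub, coeff_lowS]
    split_ifs with h1
    · rw [sub_self]
    · rw [sub_zero]
      exact x.1.1.2.2 l j fun h2 => hj ⟨by omega, h2.2⟩
  · intro l j hj
    rw [map_add, z.1.1.2.2 l j fun h2 => hj ⟨h2.1, h2.2.trans (Nat.le_add_left _ _)⟩,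
      z.2.2 l j fun h2 => hj ⟨by have := h2.1; omega, h2.2⟩, add_zero]
  · refine (lemU (u.fn z.1.1.1.1.1) (fun j hj => z.1.1.1.2.1 j hj) z.1.1.1.2.2).2 ?_
    intro j hj
    rw [← z.1.2 j hj]
    show coeff j (C _ * pp L m B _) = coeff j (C _ * pp L m B _)
    rw [coeff_C_mul, coeff_C_mul]
    congr 1
    refine pp_congr L m B (N := M₂) (fun l j hj => ?_) j hj
    rw [map_add, z.2.2 l j fun h2 => by have := h2.1; omega, add_zero]
  · intro S _ _ x
    refine Subtype.ext (Subtype.ext (Prod.ext rfl (Subtype.ext (funext fun l => ?_))))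
    show lowS M₂ (x.1.1.2.1 l) + (x.1.1.2.1 l - lowS M₂ (x.1.1.2.1 l)) = x.1.1.2.1 l
    ring
  · intro S _ _ z
    have h1 : ∀ l, lowS M₂ (z.1.1.2.1 l + z.2.1 l) = z.1.1.2.1 l := by
      intro l
      ext j
      rw [coeff_lowS, map_add]
      split_ifs with h1
      · rw [z.2.2 l j fun h2 => by have := h2.1; omega, add_zero]
      · rw [z.1.1.2.2 l j fun h2 => h1 h2.2]
    refine Prod.ext (Subtype.ext (Prod.ext rfl (Subtype.ext (funext fun l => h1 l))))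
      (Subtype.ext (funext fun l => ?_))
    show z.1.1.2.1 l + z.2.1 l - lowS M₂ (z.1.1.2.1 l + z.2.1 l) = z.2.1 l
    rw [h1 l]
    ring
  · intro S S' _ _ _ _ φ c x
    have h1 : ∀ l, lowS M₂ (C (chr c θ) * twS ω φ c (x.1.1.2.1 l))
        = C (chr c θ) * twS ω φ c (lowS M₂ (x.1.1.2.1 l)) := by
      intro l
      rw [lowS_C_mul, twS_lowS]
    refine Prod.ext (Subtype.ext (Prod.ext rfl (Subtype.ext (funext fun l => h1 l))))
      (Subtype.ext (funext fun l => ?_))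
    show C (chr c θ) * twS ω φ c (x.1.1.2.1 l) - lowS M₂ (C (chr c θ) * twS ω φ c (x.1.1.2.1 l))
      = C (chr c θ) * twS ω φ c (x.1.1.2.1 l - lowS M₂ (x.1.1.2.1 l))
    rw [h1 l, map_sub, mul_sub]
  · intro S _ _ x b
    rfl

end main

/-- SPL. -/
theorem spl : SplStmt := by
  intro k _ σ ι _ β wβ R _ L0 χ L m A B Y hY wu u M ω θ h
  have hX : FT (J2 L m A B M ω θ Y u h).F := FT_J2 L m A B M ω θ hY u h
  rw [χ.stair hX (cA L m A B M ω θ Y u h)]
  have hz : χ.χ ((J2 L m A B M ω θ Y u h).stz (cA L m A B M ω θ Y u h)) = 0 := by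
    refine χ.empty (FT.stz hX _) fun S _ _ x => ?_
    have h1 := x.1.2 M le_rfl
    rw [if_pos rfl] at h1
    rw [← h1, coeff_C_mul, coeff_mul]
    have h2 : ∀ p ∈ antidiagonal M, coeff p.1 (pp L m A x.1.1.1.2.1) *
        coeff p.2 (pp L m B x.1.1.2.1) = 0 := by
      intro p hp
      rw [HasAntidiagonal.mem_antidiagonal] at hp
      have h3 : coeff p.1 (pp L m A x.1.1.1.2.1) = 0 := x.2 ⟨p.1, by omega⟩
      rw [h3, zero_mul]
    rw [Finset.sum_eq_zero h2, mul_zero]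
  rw [hz, add_zero, Finset.Nat.sum_antidiagonal_eq_sum_range_succ_mk, Finset.sum_range]
  refine Finset.sum_congr rfl fun j _ => ?_
  obtain ⟨M₁, hM₁⟩ := j
  obtain ⟨M₂, rfl⟩ : ∃ M₂, M = M₁ + M₂ := ⟨M - M₁, by omega⟩
  have e1 : M₁ + M₂ - M₁ = M₂ := by omega
  show χ.χ ((J2 L m A B (M₁ + M₂) ω θ Y u h).stp (cA L m A B (M₁ + M₂) ω θ Y u h) ⟨M₁, hM₁⟩) = _
  rw [χ.iso (FT.stp hX _ _) (spl_iso L m A B M₁ M₂ ω θ Y u h),
    times_ser χ (FT_JJ L m B M₂ ω θ (FT_YO L m A (M₁ + M₂) M₁ ω θ hY) _ _) (Dhi_finite _ _),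
    Dhi_ncard]
  have key : ∀ (n : ℕ) (hn : n = M₂), (if hp : M₁ + n = M₁ + M₂ then
      (L0 : R) ^ (Fintype.card σ * (M₁ + M₂ - n)) *
        χ.χ (JJ L m B n ω θ (YO L m A (M₁ + M₂) M₁ ω θ Y) (uO L m A (M₁ + M₂) M₁ ω θ Y u)
          (hYO h hp)) else 0)
      = (L0 : R) ^ (Fintype.card σ * (M₁ + M₂ - M₂)) *
        χ.χ (JJ L m B M₂ ω θ (YO L m A (M₁ + M₂) M₁ ω θ Y) (uO L m A (M₁ + M₂) M₁ ω θ Y u)
          (hYO h rfl)) := by
    rintro n rfl
    rw [dif_pos rfl]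
  exact (key _ e1).symm

end Pool.Agent.NDM.H46
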